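import Pool.Agent.Run7.h538.TP.Stm

/-!
Project TP (helper538), piece LAG.
-/

set_option autoImplicit false

open Finset Polynomial

namespace Run7.h896.TP

open Run7.h538.TP

/-- LAG. -/
theorem t_LAG : S_LAG := by
  intro k t D hD ht
  have hvs : Set.InjOn D ((univ : Finset (Fin k)) : Set (Fin k)) := hD.injOn
  have hc : #(univ : Finset (Fin k)) = k := by simp
  have hdeg : (X ^ t : Polynomial ℝ).degree < #(univ : Finset (Fin k)) := by
    rw [degree_X_pow, hc]
    exact_mod_cast (by omega : t < k)
  have h := Lagrange.coeff_eq_sum hvs hdeg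
  rw [hc, coeff_X_pow, if_neg (by omega)] at h
  simp only [eval_pow, eval_X] at h
  exact h.symm

end Run7.h896.TP
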