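import Pool.Agent.Run7.h538.TP.Stm

/-!
Project TP (helper538), piece CON.
-/

set_option autoImplicit false

open Finset

namespace Run7.h896.TP

open Run7.h538.TP

theorem sign_range (K : ℕ) : ∀ j < K,
    0 < (-1 : ℝ) ^ (K - 1 - j) * ∏ i ∈ (range K).erase j, ((j : ℝ) - i) := by
  induction K with
  | zero => intro j hj; omega
  | succ K ih =>
    intro j hj
    rcases Nat.lt_succ_iff_lt_or_eq.1 hj with h | h
    · have h1 : (range (K + 1)).erase j = insert K ((range K).erase j) := by
        rw [range_add_one, erase_insert_of_ne (by omega)]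
      rw [h1, prod_insert (by simp), show K + 1 - 1 - j = (K - 1 - j) + 1 by omega, pow_succ]
      have h2 := ih j h
      have h3 : 0 < (K : ℝ) - j := by
        have : (j : ℝ) < K := by exact_mod_cast h
        linarith
      have h4 : (-1 : ℝ) ^ (K - 1 - j) * -1 *
          (((j : ℝ) - K) * ∏ i ∈ (range K).erase j, ((j : ℝ) - i)) =
          ((K : ℝ) - j) * ((-1 : ℝ) ^ (K - 1 - j) * ∏ i ∈ (range K).erase j, ((j : ℝ) - i)) := by
        ring
      rw [h4]
      exact mul_pos h3 h2
    · subst h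
      have h1 : (range (j + 1)).erase j = range j := by
        rw [range_add_one, erase_insert (by simp)]
      rw [h1, show j + 1 - 1 - j = 0 by omega, pow_zero, one_mul]
      refine prod_pos fun i hi => ?_
      have : (i : ℝ) < j := by exact_mod_cast mem_range.1 hi
      linarith

theorem sign_fin {K : ℕ} (j : Fin K) :
    0 < (-1 : ℝ) ^ (K - 1 - j.val) * ∏ i ∈ univ.erase j, ((j.val : ℝ) - (i.val : ℝ)) := by
  have h := sign_range K j.val j.isLt
  have h2 : ∏ i ∈ univ.erase j, ((j.val : ℝ) - (i.val : ℝ)) =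
      ∏ i ∈ (range K).erase j.val, ((j.val : ℝ) - i) := by
    refine prod_nbij (fun i => i.val) ?_ ?_ ?_ ?_
    · intro a ha
      have h3 := ne_of_mem_erase ha
      exact mem_erase.2 ⟨fun h => h3 (Fin.ext h), mem_range.2 a.isLt⟩
    · intro a _ b _ hab
      exact Fin.ext hab
    · intro b hb
      have h3 := mem_erase.1 hb
      exact ⟨⟨b, mem_range.1 h3.2⟩, mem_erase.2 ⟨fun h => h3.1 (congrArg Fin.val h), mem_univ _⟩, rfl⟩
    · intro a _; rfl
  rw [h2]
  exact h

/-- CON. -/
theorem t_CON : S_CON := by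
  intro K γ hγ
  set e : Fin K → ℝ := fun j => ∏ i ∈ univ.erase j, ((j.val : ℝ) - (i.val : ℝ)) with he
  have hs : ∀ j, 0 < (-1 : ℝ) ^ (K - 1 - j.val) * e j := fun j => sign_fin j
  have he0 : ∀ j, e j ≠ 0 := fun j h => by
    have := hs j
    rw [h, mul_zero] at this
    exact lt_irrefl _ this
  have hae : ∀ j, 0 < |e j| := fun j => abs_pos.2 (he0 j)
  have heq : ∀ j, e j = (-1 : ℝ) ^ (K - 1 - j.val) * |e j| := by
    intro j
    have h1 : |e j| = (-1 : ℝ) ^ (K - 1 - j.val) * e j := by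
      have : |e j| = |(-1 : ℝ) ^ (K - 1 - j.val) * e j| := by
        rw [abs_mul, abs_neg_one_pow, one_mul]
      rw [this, abs_of_pos (hs j)]
    rw [h1, ← mul_assoc, ← mul_pow]
    norm_num
  obtain ⟨b, hb, hbj⟩ : ∃ b : ℝ, 0 < b ∧ ∀ j, 4 * b ≤ γ j * |e j| := by
    rcases isEmpty_or_nonempty (Fin K) with h | h
    · exact ⟨1, one_pos, fun j => (h.false j).elim⟩
    · obtain ⟨j0, hj0⟩ := Finite.exists_min fun j => γ j * |e j|
      exact ⟨γ j0 * |e j0| / 4, by have := mul_pos (hγ j0) (hae j0); linarith, fun j => by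
        have := hj0 j
        linarith⟩
  -- the numbers
  set q : Fin K → ℝ := fun j => b / |e j| with hq
  have hqp : ∀ j, 0 < q j := fun j => div_pos hb (hae j)
  have hq4 : ∀ j, 0 ≤ γ j - 4 * q j := by
    intro j
    have h1 : 4 * q j = 4 * b / |e j| := by rw [hq]; ring
    rw [h1, sub_nonneg, div_le_iff₀ (hae j)]
    exact hbj j
  have hβ : ∀ j : Fin K, (Even j.val → (-1 : ℝ) ^ K * b / e j = -q j) ∧
      (¬ Even j.val → (-1 : ℝ) ^ K * b / e j = q j) := by
    intro j
    have hj := j.isLt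
    have h1 : (-1 : ℝ) ^ K = (-1 : ℝ) ^ (K - 1 - j.val) * (-1 : ℝ) ^ (j.val + 1) := by
      rw [← pow_add]
      congr 1
      omega
    have h2 : (-1 : ℝ) ^ (K - 1 - j.val) ≠ 0 := pow_ne_zero _ (by norm_num)
    have h3 : (-1 : ℝ) ^ K * b / e j = (-1 : ℝ) ^ (j.val + 1) * q j := by
      rw [h1, heq j, hq]
      have := (hae j).ne'
      field_simp
    constructor
    · intro hev
      rw [h3, pow_succ, hev.neg_one_pow]
      ring
    · intro hodd
      rw [h3, pow_succ, (Nat.not_even_iff_odd.1 hodd).neg_one_pow]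
      ring
  refine ⟨(-1 : ℝ) ^ K * b, fun j => if Even j.val then √(q j)
    else (√(γ j) + √(γ j - 4 * q j)) / 2, ?_, ?_, ?_, ?_⟩
  · exact mul_ne_zero (pow_ne_zero _ (by norm_num)) hb.ne'
  · intro j
    have h1 := Real.sqrt_pos.2 (hγ j)
    have h2 := Real.sqrt_nonneg (γ j - 4 * q j)
    simp only
    split_ifs
    · exact (Real.sqrt_pos.2 (hqp j)).ne'
    · positivity
  · intro j hj
    have h1 := Real.sqrt_pos.2 (hqp j)
    have h2 := Real.mul_self_sqrt (hqp j).le
    unfold zz
    simp only [if_pos hj]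
    have h3 : (-1 : ℝ) ^ K * b * (1 / ((∏ i ∈ univ.erase j, ((j.val : ℝ) - (i.val : ℝ))) * √(q j)))
        = ((-1 : ℝ) ^ K * b / e j) / √(q j) := by
      rw [he]
      simp only
      rw [mul_one_div, div_div]
    rw [h3, (hβ j).1 hj]
    field_simp
    linarith
  · intro j hj
    have h1 := Real.sqrt_pos.2 (hγ j)
    have h2 := Real.sqrt_nonneg (γ j - 4 * q j)
    have h4 := Real.mul_self_sqrt (hγ j).le
    have h5 := Real.mul_self_sqrt (hq4 j)
    unfold zz
    simp only [if_neg hj]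
    set x : ℝ := (√(γ j) + √(γ j - 4 * q j)) / 2 with hx
    have hx0 : 0 < x := by positivity
    have h3 : (-1 : ℝ) ^ K * b * (1 / ((∏ i ∈ univ.erase j, ((j.val : ℝ) - (i.val : ℝ))) * x))
        = ((-1 : ℝ) ^ K * b / e j) / x := by
      rw [he]
      simp only
      rw [mul_one_div, div_div]
    rw [h3, (hβ j).2 hj]
    have h6 : x * x - √(γ j) * x + q j = 0 := by
      rw [hx]
      linear_combination (1 / 4) * h5 - (1 / 4) * h4
    have h7 : x + q j / x = √(γ j) := by
      field_simp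
      linarith
    rw [h7, sq, h4]

end Run7.h896.TP
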